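import Pool.Agent.H639R3.Z.Fiber

/-!
# Lifting of inertia in a `ℤ_p`-tower (for TaskLocal)
-/

set_option autoImplicit false

namespace Pool.Agent.H271ZP

open Pool.Agent.H639R3

theorem val_lt_iff_of_mem_iff {L : Type} [Field L] (w w' : ValuationSubring L) (ρ : L ≃+* L)
    (h : ∀ a, a ∈ w' ↔ ρ a ∈ w) (c : L) : w'.valuation c < 1 ↔ w.valuation (ρ c) < 1 := by
  rw [val_lt_one_iff, val_lt_one_iff, h, map_inv₀, EmbeddingLike.map_eq_zero_iff]

theorem eq_of_int {F L A : Type} [Field F] [Field L] [Algebra F L] [IsGalois F L]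
    [CommRing A] [IsDedekindDomain A] [Algebra A F] [IsFractionRing A F] [Algebra A L]
    [IsScalarTower A F L] (w w' : ValuationSubring L)
    (hA : ∀ a : A, algebraMap A L a ∈ w) (hA' : ∀ a : A, algebraMap A L a ∈ w')
    (hne : w.comap (algebraMap F L) ≠ ⊤) (hne' : w'.comap (algebraMap F L) ≠ ⊤)
    (h : ∀ c : L, IsIntegral A c → (w.valuation c < 1 ↔ w'.valuation c < 1)) : w = w' := by
  ext z
  set M := IntermediateField.adjoin F {z} with hM
  have hfd : FiniteDimensional F M :=
    IntermediateField.adjoin.finiteDimensional (Algebra.IsIntegral.isIntegral z)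
  have hzM : z ∈ M := IntermediateField.mem_adjoin_simple_self F z
  let _ : Algebra A M := ((algebraMap F M).comp (algebraMap A F)).toAlgebra
  have htowM : IsScalarTower A F M := .of_algebraMap_eq fun _ => rfl
  have htowML : IsScalarTower A M L := .of_algebraMap_eq fun a => by
    rw [IsScalarTower.algebraMap_apply A F L]
    rfl
  have hne1 : ∀ O : ValuationSubring L, O.comap (algebraMap F L) ≠ ⊤ →
      O.comap (algebraMap M L) ≠ ⊤ := by
    intro O hO htop
    apply hO
    rw [eq_top_iff]
    intro y _
    have h1 : algebraMap F M y ∈ O.comap (algebraMap M L) := by rw [htop]; trivial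
    exact h1
  have heq : w.comap (algebraMap M L) = w'.comap (algebraMap M L) := by
    apply eq_of_integral_nonunits (A := A) (F := F)
    · intro a
      rw [ValuationSubring.mem_comap, ← IsScalarTower.algebraMap_apply]
      exact hA a
    · intro a
      rw [ValuationSubring.mem_comap, ← IsScalarTower.algebraMap_apply]
      exact hA' a
    · exact hne1 w hne
    · exact hne1 w' hne'
    · intro c hc
      rw [comap_val_lt_one, comap_val_lt_one]
      exact h _ hc.algebraMap
  have h1 : (⟨z, hzM⟩ : M) ∈ w.comap (algebraMap M L) ↔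
      (⟨z, hzM⟩ : M) ∈ w'.comap (algebraMap M L) := by rw [heq]
  exact h1

theorem res_trivial {F L A : Type} [Field F] [Field L] [Algebra F L] [IsGalois F L]
    [CommRing A] [IsDedekindDomain A] [Algebra A F] [IsFractionRing A F] [Algebra A L]
    [IsScalarTower A F L] (w : ValuationSubring L)
    (hA : ∀ a : A, algebraMap A L a ∈ w) (hne : w.comap (algebraMap F L) ≠ ⊤)
    (ρ : L ≃+* L) (hρ : ∀ a, a ∈ w ↔ ρ a ∈ w)
    (h : ∀ c : L, IsIntegral A c → w.valuation (ρ c - c) < 1) :
    ∀ a ∈ w, w.valuation (ρ a - a) < 1 := by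
  intro z hz
  set M := IntermediateField.adjoin F {z} with hM
  have hfd : FiniteDimensional F M :=
    IntermediateField.adjoin.finiteDimensional (Algebra.IsIntegral.isIntegral z)
  have hzM : z ∈ M := IntermediateField.mem_adjoin_simple_self F z
  let _ : Algebra A M := ((algebraMap F M).comp (algebraMap A F)).toAlgebra
  have htowM : IsScalarTower A F M := .of_algebraMap_eq fun _ => rfl
  have htowML : IsScalarTower A M L := .of_algebraMap_eq fun a => by
    rw [IsScalarTower.algebraMap_apply A F L]
    rfl
  have hD : IsDedekindDomain (integralClosure A M) := integralClosure.isDedekindDomain A F (L := M)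
  have hFr : IsFractionRing (integralClosure A M) M :=
    integralClosure.isFractionRing_of_finite_extension F M
  have hO : w.comap (algebraMap M L) ≠ ⊤ := by
    intro htop
    apply hne
    rw [eq_top_iff]
    intro y _
    have h1 : algebraMap F M y ∈ w.comap (algebraMap M L) := by rw [htop]; trivial
    exact h1
  have hAM : ∀ a : A, algebraMap A M a ∈ w.comap (algebraMap M L) := by
    intro a
    rw [ValuationSubring.mem_comap, ← IsScalarTower.algebraMap_apply]
    exact hA a
  have hB : ∀ c : integralClosure A M, algebraMap (integralClosure A M) M c ∈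
      w.comap (algebraMap M L) := fun c => integral_mem _ hAM c c.2
  have h0 : (⟨z, hzM⟩ : M) ∈ w.comap (algebraMap M L) := hz
  obtain ⟨a, b, hb, hab⟩ := (mem_iff_of_cent _ hB hO _).mp h0
  have hb1 := val_eq_one _ hB b hb
  have hbL : IsIntegral A (algebraMap M L b) := (show IsIntegral A (b : M) from b.2).algebraMap
  have haL : IsIntegral A (algebraMap M L a) := (show IsIntegral A (a : M) from a.2).algebraMap
  have habL : z * algebraMap M L b = algebraMap M L a := by
    have := congrArg (algebraMap M L) hab
    rw [map_mul] at this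
    exact this
  have hbw : w.valuation (algebraMap M L b) = 1 := by
    have h2 : ¬ w.valuation (algebraMap M L b) < 1 := by
      intro h3
      rw [← comap_val_lt_one] at h3
      exact (h3.ne hb1)
    have h3 : w.valuation (algebraMap M L b) ≤ 1 := (w.valuation_le_one_iff _).mpr (hB b)
    exact le_antisymm h3 (not_lt.mp h2)
  have e1 : (ρ z - z) * algebraMap M L b =
      (ρ (algebraMap M L a) - algebraMap M L a) - ρ z * (ρ (algebraMap M L b) -
        algebraMap M L b) := by
    rw [← habL, map_mul]
    ring
  have e2 : w.valuation ((ρ z - z) * algebraMap M L b) < 1 := by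
    rw [e1]
    refine (Valuation.map_sub _ _ _).trans_lt (max_lt (h _ haL) ?_)
    rw [map_mul]
    exact (mul_le_of_le_one_left' ((w.valuation_le_one_iff _).mpr ((hρ z).mp hz))).trans_lt
      (h _ hbL)
  rwa [map_mul, hbw, mul_one] at e2

set_option backward.isDefEq.respectTransparency.types false in
open scoped Pointwise in
theorem exists_trivial {F L A : Type} [Field F] [Field L] [Algebra F L] [IsGalois F L]
    [CommRing A] [IsDedekindDomain A] [Algebra A F] [IsFractionRing A F] [Algebra A L]
    [IsScalarTower A F L] (w : ValuationSubring L) (hA : ∀ a : A, algebraMap A L a ∈ w)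
    (hne : w.comap (algebraMap F L) ≠ ⊤) (ρ : L ≃+* L) (hρ : ∀ a, a ∈ w ↔ ρ a ∈ w)
    (hρA : ∀ a : A, w.valuation (ρ (algebraMap A L a) - algebraMap A L a) < 1)
    (hint : ∀ c : L, IsIntegral A c → IsIntegral A (ρ c))
    (hint' : ∀ c : L, IsIntegral A c → IsIntegral A (ρ.symm c)) :
    ∃ τ : L ≃ₐ[F] L, (∀ a, a ∈ w ↔ τ a ∈ w) ∧
      ∀ c : L, IsIntegral A c → w.valuation (ρ c - τ c) < 1 := by
  have halgA : Algebra.IsAlgebraic A L :=
    (IsFractionRing.comap_isAlgebraic_iff (A := A) (K := F) (C := L)).mpr inferInstance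
  have hinjAL : Function.Injective (algebraMap A L) := by
    rw [IsScalarTower.algebraMap_eq A F L]
    exact (algebraMap F L).injective.comp (IsFractionRing.injective A F)
  have htf : IsDomain (integralClosure A L) := inferInstance
  have hFr : IsFractionRing (integralClosure A L) L :=
    integralClosure.isFractionRing_of_algebraic (fun x hx => hinjAL (by rw [hx, map_zero]))
  let _ : MulSemiringAction (L ≃ₐ[F] L) (integralClosure A L) :=
    IsIntegralClosure.MulSemiringAction A F L (integralClosure A L)
  have hsmul : ∀ (σ : L ≃ₐ[F] L) (c : integralClosure A L), ((σ • c : integralClosure A L) : L) =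
      σ c := fun σ c => algebraMap_galRestrict_apply A σ c
  let _ : TopologicalSpace (integralClosure A L) := ⊥
  have hdisc : DiscreteTopology (integralClosure A L) := ⟨rfl⟩
  have hcont : ContinuousSMul (L ≃ₐ[F] L) (integralClosure A L) := by
    refine (continuousSMul_iff_stabilizer_isOpen (M := L ≃ₐ[F] L)
      (X := integralClosure A L)).mpr fun c => ?_
    have h1 := stabilizer_isOpen_of_isIntegral (K := F) (L := L) (c : L)
    convert h1 using 1
    ext σ
    simp only [SetLike.mem_coe, MulAction.mem_stabilizer_iff]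
    constructor
    · intro h2
      have h3 := congrArg (fun z : integralClosure A L => (z : L)) h2
      simp only [hsmul] at h3
      exact h3
    · intro h2
      apply Subtype.ext
      rw [hsmul]
      exact h2
  have hcomm : SMulCommClass (L ≃ₐ[F] L) A (integralClosure A L) := by
    constructor
    intro σ a c
    apply Subtype.ext
    rw [hsmul]
    change σ (a • (c : L)) = a • ((σ • c : integralClosure A L) : L)
    rw [hsmul, Algebra.smul_def, Algebra.smul_def, map_mul]
    congr 1
    rw [IsScalarTower.algebraMap_apply A F L, AlgEquiv.commutes]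
  have hinv : Algebra.IsInvariant A (integralClosure A L) (L ≃ₐ[F] L) := by
    refine ⟨fun b hb => ?_⟩
    have hb2 : ∀ σ : L ≃ₐ[F] L, σ (b : L) = b := fun σ => by rw [← hsmul, hb σ]
    obtain ⟨y, hy⟩ := (InfiniteGalois.mem_range_algebraMap_iff_fixed (k := F) (K := L) (b : L)).mpr hb2
    have hy2 : IsIntegral A y := by
      have := b.2
      rw [mem_integralClosure_iff, ← hy] at this
      exact (isIntegral_algebraMap_iff (algebraMap F L).injective).mp this
    obtain ⟨a, ha⟩ := IsIntegrallyClosed.isIntegral_iff.mp hy2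
    refine ⟨a, ?_⟩
    apply Subtype.ext
    change algebraMap A L a = (b : L)
    rw [← hy, ← ha, ← IsScalarTower.algebraMap_apply]
  have hC : ∀ c : integralClosure A L, algebraMap (integralClosure A L) L c ∈ w := fun c =>
    integral_mem w hA c c.2
  set Q : Ideal (integralClosure A L) := cent w hC with hQdef
  have hQprime : Q.IsPrime := cent_isPrime w hC
  have hmemQ : ∀ c, c ∈ Q ↔ w.valuation (algebraMap (integralClosure A L) L c) < 1 :=
    fun c => mem_cent w hC c
  let P : Ideal A := Q.under A
  have hlies : Q.LiesOver P := ⟨rfl⟩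
  let e : integralClosure A L ≃+* integralClosure A L :=
    { toFun := fun c => ⟨ρ c, hint c c.2⟩
      invFun := fun c => ⟨ρ.symm c, hint' c c.2⟩
      left_inv := fun c => Subtype.ext (ρ.symm_apply_apply _)
      right_inv := fun c => Subtype.ext (ρ.apply_symm_apply _)
      map_mul' := fun c d => Subtype.ext (map_mul ρ _ _)
      map_add' := fun c d => Subtype.ext (map_add ρ _ _) }
  have he : ∀ c : integralClosure A L, ((e c : integralClosure A L) : L) = ρ c := fun c => rfl
  have hQ : ∀ c, e c ∈ Q ↔ c ∈ Q := by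
    intro c
    rw [hmemQ, hmemQ]
    exact (val_lt_iff_of_mem_iff w w ρ hρ _).symm
  have hmap : Q = Q.map (e : integralClosure A L →+* integralClosure A L) := by
    ext c
    rw [Ideal.mem_map_iff_of_surjective
      (e : integralClosure A L →+* integralClosure A L) e.surjective]
    constructor
    · intro hc
      refine ⟨e.symm c, ?_, e.apply_symm_apply c⟩
      rw [← hQ, e.apply_symm_apply]
      exact hc
    · rintro ⟨d, hd, rfl⟩
      exact (hQ d).mpr hd
  let f := Ideal.quotientEquiv Q Q e hmap
  have hf : ∀ c, f (Ideal.Quotient.mk Q c) = Ideal.Quotient.mk Q (e c) := fun c => rfl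
  have hcomm2 : ∀ r : A ⧸ P, f (algebraMap (A ⧸ P) (integralClosure A L ⧸ Q) r) =
      algebraMap (A ⧸ P) (integralClosure A L ⧸ Q) r := by
    intro r
    obtain ⟨a, rfl⟩ := Ideal.Quotient.mk_surjective r
    change f (Ideal.Quotient.mk Q (algebraMap A (integralClosure A L) a)) =
      Ideal.Quotient.mk Q (algebraMap A (integralClosure A L) a)
    rw [hf, Ideal.Quotient.eq, hmemQ]
    exact hρA a
  let f' : (integralClosure A L ⧸ Q) ≃ₐ[A ⧸ P] (integralClosure A L ⧸ Q) :=
    AlgEquiv.ofRingEquiv (f := f) hcomm2
  obtain ⟨τ, hτ⟩ := Ideal.Quotient.stabilizerHom_surjective_of_profinite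
    (G := L ≃ₐ[F] L) P Q f'
  have hstab := MulAction.mem_stabilizer_iff.mp τ.2
  have key : ∀ c : integralClosure A L, w.valuation (ρ (c : L) - (τ : L ≃ₐ[F] L) (c : L)) < 1 := by
    intro c
    have h1 := congrArg (fun g : (integralClosure A L ⧸ Q) ≃ₐ[A ⧸ P] (integralClosure A L ⧸ Q) =>
      g (Ideal.Quotient.mk Q c)) hτ
    have h2 : Ideal.Quotient.mk Q ((τ : L ≃ₐ[F] L) • c) = Ideal.Quotient.mk Q (e c) := h1
    have h3 := (Ideal.Quotient.eq.mp h2.symm)
    rw [hmemQ] at h3
    have h4 : algebraMap (integralClosure A L) L (e c - (τ : L ≃ₐ[F] L) • c) =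
        ρ (c : L) - (τ : L ≃ₐ[F] L) (c : L) := by
      rw [map_sub]
      change ρ (c : L) - (((τ : L ≃ₐ[F] L) • c : integralClosure A L) : L) = _
      rw [hsmul]
    rwa [h4] at h3
  refine ⟨τ, ?_, fun c hc => key ⟨c, hc⟩⟩
  have hfix : ∀ y : F, (τ : L ≃ₐ[F] L) (algebraMap F L y) = algebraMap F L y := fun y =>
      AlgEquiv.commutes _ _
  have heqw : w = w.comap (((τ : L ≃ₐ[F] L) : L ≃ₐ[F] L) : L →+* L) := by
    refine eq_of_int (F := F) (A := A) w _ hA ?_ hne ?_ ?_
    · intro a
      rw [ValuationSubring.mem_comap, IsScalarTower.algebraMap_apply A F L]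
      change (τ : L ≃ₐ[F] L) (algebraMap F L (algebraMap A F a)) ∈ w
      rw [hfix, ← IsScalarTower.algebraMap_apply]
      exact hA a
    · intro htop
      apply hne
      rw [eq_top_iff]
      intro y _
      have h1 : y ∈ (w.comap (((τ : L ≃ₐ[F] L) : L ≃ₐ[F] L) : L →+* L)).comap
        (algebraMap F L) := by rw [htop]; trivial
      rw [ValuationSubring.mem_comap, ValuationSubring.mem_comap] at h1
      have h2 : (((τ : L ≃ₐ[F] L) : L ≃ₐ[F] L) : L →+* L) (algebraMap F L y) =
        algebraMap F L y := hfix y
      rw [h2] at h1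
      exact h1
    · intro c hc
      rw [comap_val_lt_one]
      have h1 := key ⟨c, hc⟩
      have h2 := val_lt_iff_of_mem_iff w w ρ hρ c
      change w.valuation c < 1 ↔ w.valuation ((τ : L ≃ₐ[F] L) c) < 1
      rw [h2]
      constructor
      · intro h3
        have h4 : (τ : L ≃ₐ[F] L) c = ρ c - (ρ c - (τ : L ≃ₐ[F] L) c) := by ring
        rw [h4]
        exact (Valuation.map_sub _ _ _).trans_lt (max_lt h3 h1)
      · intro h3
        have h4 : ρ c = (τ : L ≃ₐ[F] L) c + (ρ c - (τ : L ≃ₐ[F] L) c) := by ring
        rw [h4]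
        exact (Valuation.map_add _ _ _).trans_lt (max_lt h3 h1)
  intro a
  conv_lhs => rw [heqw]
  rfl

end Pool.Agent.H271ZP
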