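import Pool.Agent.H271R3.ZP.Inertia

/-!
# Inertia at finite layers of a `ℤ_p`-tower is trivial at unramified points
-/

set_option autoImplicit false

namespace Pool.Agent.H271ZP

open Pool.Agent.H639R3

theorem isIntegral_aut {A K L : Type} [CommRing A] [Field K] [Field L] [Algebra A K]
    [Algebra K L] [Algebra A L] [IsScalarTower A K L] (σ : L ≃ₐ[K] L) (c : L)
    (hc : IsIntegral A c) : IsIntegral A (σ c) :=
  hc.map (σ.toAlgHom.restrictScalars A)

theorem lift_inertia {p : ℕ} [Fact p.Prime] {k K L : Type} [Field k] [Finite k]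
    [Field K] [Field L] [Algebra k K] [Algebra K L] [Algebra k L] [IsScalarTower k K L]
    (T : ZpTower p k K L) (x : ClosedPoint k K) (hx : x ∉ T.S) (w : ValuationSubring L)
    (hw : w.comap (algebraMap K L) = x.ring) (n : ℕ)
    (A : Type) [CommRing A] [IsDedekindDomain A] [Algebra A K] [IsFractionRing A K]
    [Algebra A L] [IsScalarTower A K L]
    (hA : ∀ a : A, algebraMap A K a ∈ x.ring) (σ : L ≃ₐ[K] L)
    (h : ∀ b ∈ T.layer n, IsIntegral A b → w.valuation (σ b - b) < 1) : σ ∈ T.sub n := by
  have := T.galois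
  have := T.layer_finite n
  let _ : Algebra A (T.layer n) := ((algebraMap K (T.layer n)).comp (algebraMap A K)).toAlgebra
  have htowM : IsScalarTower A K (T.layer n) := .of_algebraMap_eq fun _ => rfl
  have htowML : IsScalarTower A (T.layer n) L := .of_algebraMap_eq fun a => by
    rw [IsScalarTower.algebraMap_apply A K L]
    rfl
  have hD : IsDedekindDomain (integralClosure A (T.layer n)) :=
    integralClosure.isDedekindDomain A K (L := T.layer n)
  have hFr : IsFractionRing (integralClosure A (T.layer n)) (T.layer n) :=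
    integralClosure.isFractionRing_of_finite_extension K (T.layer n)
  have hAw : ∀ a : A, algebraMap A L a ∈ w := by
    intro a
    have h1 := hA a
    rw [← hw, ValuationSubring.mem_comap, ← IsScalarTower.algebraMap_apply] at h1
    exact h1
  have hne : w.comap (algebraMap K L) ≠ ⊤ := by
    rw [hw]
    exact x.ne_top
  have hne1 : ∀ O : ValuationSubring L, O.comap (algebraMap K L) ≠ ⊤ →
      O.comap (algebraMap (T.layer n) L) ≠ ⊤ := by
    intro O hO htop
    apply hO
    rw [eq_top_iff]
    intro y _
    have h1 : algebraMap K (T.layer n) y ∈ O.comap (algebraMap (T.layer n) L) := by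
      rw [htop]; trivial
    exact h1
  have hσfix : ∀ y : K, σ (algebraMap K L y) = algebraMap K L y := fun y => AlgEquiv.commutes _ _
  set wσ : ValuationSubring L := w.comap (σ : L →+* L) with hwσ
  have hwσmem : ∀ a, a ∈ wσ ↔ σ a ∈ w := fun a => Iff.rfl
  have hwσK : wσ.comap (algebraMap K L) = w.comap (algebraMap K L) := by
    ext y
    change σ (algebraMap K L y) ∈ w ↔ algebraMap K L y ∈ w
    rw [hσfix]
  have hval : ∀ c : L, wσ.valuation c < 1 ↔ w.valuation (σ c) < 1 := fun c =>
    val_lt_iff_of_mem_iff w wσ (σ : L ≃+* L) hwσmem c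
  have h1 : w.comap (algebraMap (T.layer n) L) = wσ.comap (algebraMap (T.layer n) L) := by
    apply eq_of_integral_nonunits (A := A) (F := K)
    · intro a
      rw [ValuationSubring.mem_comap, ← IsScalarTower.algebraMap_apply]
      exact hAw a
    · intro a
      rw [ValuationSubring.mem_comap, ← IsScalarTower.algebraMap_apply, hwσmem,
        IsScalarTower.algebraMap_apply A K L, hσfix, ← IsScalarTower.algebraMap_apply]
      exact hAw a
    · exact hne1 w hne
    · exact hne1 wσ (by rw [hwσK]; exact hne)
    · intro c hc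
      rw [comap_val_lt_one, comap_val_lt_one, hval]
      have h2 := h (algebraMap (T.layer n) L c) c.2 hc.algebraMap
      constructor
      · intro h3
        have h4 : σ (algebraMap (T.layer n) L c) = (σ (algebraMap (T.layer n) L c) -
            algebraMap (T.layer n) L c) + algebraMap (T.layer n) L c := by ring
        rw [h4]
        exact (Valuation.map_add _ _ _).trans_lt (max_lt h2 h3)
      · intro h3
        have h4 : algebraMap (T.layer n) L c = σ (algebraMap (T.layer n) L c) -
            (σ (algebraMap (T.layer n) L c) - algebraMap (T.layer n) L c) := by ring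
        rw [h4]
        exact (Valuation.map_sub _ _ _).trans_lt (max_lt h3 h2)
  have hintw : ∀ c : T.layer n, IsIntegral A c → algebraMap (T.layer n) L c ∈ w := fun c hc =>
    integral_mem w hAw _ hc.algebraMap
  obtain ⟨τ, hτ⟩ := exists_aut (F := T.layer n) (A := integralClosure A (T.layer n)) w wσ
    (fun a => hintw a a.2) (hne1 w hne) h1
  -- the automorphism in the decomposition group
  let τK : L ≃ₐ[K] L := τ.restrictScalars K
  let ρ : L ≃ₐ[K] L := τK.symm.trans σ
  have hρ : ∀ a, ρ a = σ (τ.symm a) := fun a => rfl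
  have hρw : ∀ a, a ∈ w ↔ ρ a ∈ w := by
    intro a
    rw [hρ, ← hwσmem, hτ, AlgEquiv.apply_symm_apply]
  have hintK : ∀ c : L, IsIntegral (integralClosure A (T.layer n)) c ↔ IsIntegral A c := by
    intro c
    constructor
    · intro hc
      have : Algebra.IsIntegral A (integralClosure A (T.layer n)) := inferInstance
      exact isIntegral_trans (R := A) (A := integralClosure A (T.layer n)) c hc
    · intro hc
      exact hc.tower_top
  obtain ⟨τ', hτ'1, hτ'2⟩ := exists_trivial (F := T.layer n)
    (A := integralClosure A (T.layer n)) w (fun a => hintw a a.2) (hne1 w hne)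
    (ρ : L ≃+* L) hρw (by
      intro a
      have e1 : τ.symm (algebraMap (T.layer n) L (a : T.layer n)) =
        algebraMap (T.layer n) L (a : T.layer n) := AlgEquiv.commutes _ _
      change w.valuation (σ (τ.symm (algebraMap (T.layer n) L (a : T.layer n))) -
        algebraMap (T.layer n) L (a : T.layer n)) < 1
      rw [e1]
      exact h _ (a : T.layer n).2 (show IsIntegral A (a : T.layer n) from a.2).algebraMap)
    (by
      intro c hc
      rw [hintK] at hc ⊢
      exact isIntegral_aut ρ c hc)
    (by
      intro c hc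
      rw [hintK] at hc ⊢
      exact isIntegral_aut ρ.symm c hc)
  let τ'K : L ≃ₐ[K] L := τ'.restrictScalars K
  let ρ' : L ≃ₐ[K] L := τ'K.symm.trans ρ
  have hρ' : ∀ a, ρ' a = ρ (τ'.symm a) := fun a => rfl
  have hρ'w : ∀ a, a ∈ w ↔ ρ' a ∈ w := by
    intro a
    rw [hρ', ← hρw, hτ'1 (τ'.symm a), AlgEquiv.apply_symm_apply]
  have hone : ρ' = 1 := by
    refine T.unramified x hx w hw ρ' hρ'w ?_
    refine res_trivial (F := K) (A := A) w hAw hne (ρ' : L ≃+* L) hρ'w ?_
    intro c hc
    have h2 := hτ'2 (τ'.symm c) (by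
      rw [hintK]
      exact isIntegral_aut τ'K.symm c hc)
    rw [AlgEquiv.apply_symm_apply] at h2
    exact h2
  rw [T.mem_sub_iff]
  intro a ha
  have h2 : ρ' (τ' (τ a)) = τ' (τ a) := by rw [hone]; rfl
  rw [hρ', AlgEquiv.symm_apply_apply, hρ, AlgEquiv.symm_apply_apply] at h2
  have e1 : τ (algebraMap (T.layer n) L ⟨a, ha⟩) = algebraMap (T.layer n) L ⟨a, ha⟩ :=
    AlgEquiv.commutes _ _
  have e2 : τ' (algebraMap (T.layer n) L ⟨a, ha⟩) = algebraMap (T.layer n) L ⟨a, ha⟩ :=
    AlgEquiv.commutes _ _
  have e3 : algebraMap (T.layer n) L ⟨a, ha⟩ = a := rfl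
  rw [e3] at e1 e2
  rw [h2, e1, e2]

end Pool.Agent.H271ZP
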