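import Pool.Agent.H271R3.ZP.Lift

/-!
# An element whose trace is a unit at an unramified point
-/

set_option autoImplicit false

namespace Pool.Agent.H271ZP

open Pool.Agent.H639R3

theorem iso_aut {p : ℕ} [Fact p.Prime] {k K L : Type} [Field k]
    [Field K] [Field L] [Algebra k K] [Algebra K L] [Algebra k L] [IsScalarTower k K L]
    (T : ZpTower p k K L) (z : ℤ_[p]) : (T.iso (T.aut z)).toAdd = z := by
  unfold ZpTower.aut
  simp

theorem exists_trace {p : ℕ} [Fact p.Prime] {k K L : Type} [Field k] [Finite k]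
    [Field K] [Field L] [Algebra k K] [Algebra K L] [Algebra k L] [IsScalarTower k K L]
    (T : ZpTower p k K L) (x : ClosedPoint k K) (hx : x ∉ T.S) (w : ValuationSubring L)
    (hw : w.comap (algebraMap K L) = x.ring) (n : ℕ)
    (A : Type) [CommRing A] [IsDedekindDomain A] [Algebra A K] [IsFractionRing A K]
    [Algebra A L] [IsScalarTower A K L]
    (hA : ∀ a : A, algebraMap A K a ∈ x.ring) :
    ∃ θ : L, θ ∈ T.layer n ∧ IsIntegral A θ ∧
      w.valuation (∑ j ∈ Finset.range (p ^ n), T.aut ((j : ℕ) : ℤ_[p]) θ) = 1 := by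
  classical
  have hp : Fact p.Prime := inferInstance
  let _ : Algebra A (T.layer n) := ((algebraMap K (T.layer n)).comp (algebraMap A K)).toAlgebra
  have htowM : IsScalarTower A K (T.layer n) := .of_algebraMap_eq fun _ => rfl
  have htowML : IsScalarTower A (T.layer n) L := .of_algebraMap_eq fun a => by
    rw [IsScalarTower.algebraMap_apply A K L]
    rfl
  have hAw : ∀ a : A, algebraMap A L a ∈ w := by
    intro a
    have h1 := hA a
    rw [← hw, ValuationSubring.mem_comap, ← IsScalarTower.algebraMap_apply] at h1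
    exact h1
  have hint : ∀ (b : integralClosure A (T.layer n)) (j : ℕ),
      T.aut ((j : ℕ) : ℤ_[p]) (algebraMap (T.layer n) L (b : T.layer n)) ∈ w := fun b j =>
    integral_mem w hAw _ (isIntegral_aut (T.aut (j : ℤ_[p])) _
      (show IsIntegral A (b : T.layer n) from b.2).algebraMap)
  -- the characters
  let ψ : ℕ → (integralClosure A (T.layer n)) →+* w := fun j =>
    ((((T.aut ((j : ℕ) : ℤ_[p]) : L ≃ₐ[K] L) : L →+* L).comp
      ((algebraMap (T.layer n) L).comp (algebraMap (integralClosure A (T.layer n))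
        (T.layer n)))).codRestrict w.toSubring fun b => hint b j)
  have hψ : ∀ j b, ((ψ j b : w) : L) = T.aut ((j : ℕ) : ℤ_[p])
      (algebraMap (T.layer n) L (b : T.layer n)) := fun j b => rfl
  let χ : ℕ → (integralClosure A (T.layer n)) →* IsLocalRing.ResidueField w := fun j =>
    ((IsLocalRing.residue w).comp (ψ j) : (integralClosure A (T.layer n)) →*
      IsLocalRing.ResidueField w)
  have hχ : ∀ j b, χ j b = IsLocalRing.residue w (ψ j b) := fun j b => rfl
  have hres : ∀ a : w, IsLocalRing.residue w a = 0 ↔ w.valuation (a : L) < 1 := by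
    intro a
    rw [IsLocalRing.residue_eq_zero_iff]
    exact w.valuation_lt_one_iff a
  have hinj : Set.InjOn χ (Finset.range (p ^ n)) := by
    intro i hi j hj hij
    rw [Finset.coe_range, Set.mem_Iio] at hi hj
    have hmem : T.aut ((j : ℤ_[p]) - i) ∈ T.sub n := by
      refine lift_inertia T x hx w hw n A hA _ ?_
      intro b hb hbint
      have h1 : T.aut (-(i : ℤ_[p])) b ∈ T.layer n := T.aut_layer n _ b hb
      have h2 : IsIntegral A (T.aut (-(i : ℤ_[p])) b) := isIntegral_aut _ _ hbint
      have h3 : IsIntegral A (⟨T.aut (-(i : ℤ_[p])) b, h1⟩ : T.layer n) := by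
        have : IsIntegral A (algebraMap (T.layer n) L ⟨T.aut (-(i : ℤ_[p])) b, h1⟩) := h2
        exact (isIntegral_algebraMap_iff (algebraMap (T.layer n) L).injective).mp this
      have h4 := DFunLike.congr_fun hij
        (⟨⟨T.aut (-(i : ℤ_[p])) b, h1⟩, h3⟩ : integralClosure A (T.layer n))
      rw [hχ, hχ, ← sub_eq_zero, ← map_sub, hres] at h4
      have h5 : T.aut (i : ℤ_[p]) (T.aut (-(i : ℤ_[p])) b) = b := by
        rw [← T.aut_add, neg_add_cancel, T.aut_zero]
      have h6 : T.aut (j : ℤ_[p]) (T.aut (-(i : ℤ_[p])) b) = T.aut ((j : ℤ_[p]) - i) b := by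
        rw [← T.aut_add, neg_add_eq_sub]
      have h7 : w.valuation (T.aut (i : ℤ_[p]) (T.aut (-(i : ℤ_[p])) b) -
          T.aut (j : ℤ_[p]) (T.aut (-(i : ℤ_[p])) b)) < 1 := h4
      rw [h5, h6, Valuation.map_sub_swap] at h7
      exact h7
    rw [T.mem_sub, iso_aut] at hmem
    have h8 : (p : ℤ_[p]) ^ n ∣ (((j : ℤ) - i : ℤ) : ℤ_[p]) := by
      push_cast
      exact hmem
    rw [PadicInt.pow_p_dvd_int_iff] at h8
    have h9 : |(j : ℤ) - i| < (p ^ n : ℤ) := by
      have : ((p ^ n : ℕ) : ℤ) = (p ^ n : ℤ) := by push_cast; rfl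
      rw [← this, abs_lt]
      constructor <;> omega
    have h10 := Int.eq_zero_of_abs_lt_dvd h8 h9
    omega
  by_contra hcon
  push Not at hcon
  have hzero : ∀ b : integralClosure A (T.layer n),
      ∑ j ∈ Finset.range (p ^ n), χ j b = 0 := by
    intro b
    have h1 : ∑ j ∈ Finset.range (p ^ n), χ j b =
        IsLocalRing.residue w (∑ j ∈ Finset.range (p ^ n), ψ j b) := by
      rw [map_sum]
      rfl
    rw [h1, hres]
    have h2 : ((∑ j ∈ Finset.range (p ^ n), ψ j b : w) : L) =
        ∑ j ∈ Finset.range (p ^ n), T.aut ((j : ℕ) : ℤ_[p])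
          (algebraMap (T.layer n) L (b : T.layer n)) := by
      have h5 : ((∑ j ∈ Finset.range (p ^ n), ψ j b : w) : L) =
          ∑ j ∈ Finset.range (p ^ n), ((ψ j b : w) : L) :=
        map_sum w.subtype _ _
      rw [h5]
      exact Finset.sum_congr rfl fun j _ => hψ j b
    have h3 := hcon (algebraMap (T.layer n) L (b : T.layer n)) (b : T.layer n).2
      (show IsIntegral A (b : T.layer n) from b.2).algebraMap
    have h4 : w.valuation ((∑ j ∈ Finset.range (p ^ n), ψ j b : w) : L) ≤ 1 :=
      (w.valuation_le_one_iff _).mpr (∑ j ∈ Finset.range (p ^ n), ψ j b : w).2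
    refine lt_of_le_of_ne h4 ?_
    rw [h2]
    exact h3
  have hlin := linearIndependent_monoidHom (integralClosure A (T.layer n))
    (IsLocalRing.ResidueField w)
  rw [linearIndependent_iff'] at hlin
  have h0 : (0 : ℕ) ∈ Finset.range (p ^ n) := by
    rw [Finset.mem_range]
    exact pow_pos hp.out.pos _
  have h1 := hlin ((Finset.range (p ^ n)).image χ) (fun _ => 1) (by
    funext b
    rw [Finset.sum_image hinj]
    simp only [one_smul, Finset.sum_apply, Pi.zero_apply]
    exact hzero b) (χ 0) (Finset.mem_image_of_mem _ h0)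
  exact one_ne_zero h1

end Pool.Agent.H271ZP
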