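import Pool.Agent.H680R3.ZP.Stmts
import Pool.Agent.H271R3.ZP.Trace

/-!
# TaskLocal: local reduction of Artin-Schreier-Witt generators at unramified points
-/

set_option autoImplicit false

namespace Pool.Agent.H271ZP

open Pool.Agent.H639R3 H680ZP

section wv

variable {p : ℕ} [Fact p.Prime] {R : Type} [CommRing R]

theorem vz_iff (n : ℕ) (u : WittVector p R) : VZ n u ↔ WittVector.truncate n u = 0 := by
  rw [← RingHom.mem_ker, WittVector.mem_ker_truncate]
  rfl

theorem coeff_eq_of_truncate {n : ℕ} {u v : WittVector p R}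
    (h : WittVector.truncate n u = WittVector.truncate n v) {i : ℕ} (hi : i < n) :
    u.coeff i = v.coeff i := by
  have h1 := congrArg (fun t => TruncatedWittVector.coeff (⟨i, hi⟩ : Fin n) t) h
  simpa [WittVector.coeff_truncate] using h1

theorem truncate_eq_of_coeff {n : ℕ} {u v : WittVector p R}
    (h : ∀ i < n, u.coeff i = v.coeff i) :
    WittVector.truncate n u = WittVector.truncate n v := by
  ext i
  rw [WittVector.coeff_truncate, WittVector.coeff_truncate]
  exact h i i.2

theorem truncate_p_pow [CharP R p] (n : ℕ) :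
    WittVector.truncate n ((p : WittVector p R) ^ n) = 0 := by
  rw [← vz_iff]
  intro i hi
  exact WittVector.coeff_p_pow_eq_zero p R hi.ne

/-- Witt vectors with components in a subring. -/
noncomputable def RW (p : ℕ) [Fact p.Prime] {L : Type} [CommRing L] (w : Subring L) : Subring (WittVector p L) :=
  (WittVector.map (p := p) w.subtype).range

theorem mem_RW {L : Type} [CommRing L] (w : Subring L) (u : WittVector p L) :
    u ∈ RW p w ↔ ∀ i, u.coeff i ∈ w := by
  constructor
  · rintro ⟨v, rfl⟩ i
    rw [WittVector.map_coeff]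
    exact (v.coeff i).2
  · intro h
    refine ⟨WittVector.mk p fun i => ⟨u.coeff i, h i⟩, ?_⟩
    ext i
    rw [WittVector.map_coeff]
    rfl

theorem teich_mem {L : Type} [CommRing L] (w : Subring L) (a : L) (ha : a ∈ w) :
    WittVector.teichmuller p a ∈ RW p w := by
  rw [mem_RW]
  intro i
  cases i with
  | zero => simpa using ha
  | succ i => rw [WittVector.teichmuller_coeff_pos p a _ (Nat.succ_pos i)]; exact w.zero_mem

end wv

theorem sum_shift {M : Type} [AddCommGroup M] (N : ℕ) (f : ℕ → M) (h : f N = f 0) :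
    ∑ j ∈ Finset.range N, f (j + 1) = ∑ j ∈ Finset.range N, f j := by
  have h1 := Finset.sum_range_succ f N
  have h2 := Finset.sum_range_succ' f N
  rw [h1] at h2
  rw [h] at h2
  exact (add_right_cancel h2).symm

theorem sum_weight {R : Type} [CommRing R] (N : ℕ) (f : ℕ → R) (h : f N = f 0) :
    ∑ j ∈ Finset.range N, (j : R) * f (j + 1) =
      ∑ j ∈ Finset.range N, (j : R) * f j + N * f N - ∑ j ∈ Finset.range N, f j := by
  have h1 := Finset.sum_range_succ (fun j : ℕ => (j : R) * f j) N
  have h2 := Finset.sum_range_succ' (fun j : ℕ => (j : R) * f j) N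
  rw [h1] at h2
  have h3 : ∑ j ∈ Finset.range N, ((j + 1 : ℕ) : R) * f (j + 1) =
      ∑ j ∈ Finset.range N, (j : R) * f (j + 1) + ∑ j ∈ Finset.range N, f (j + 1) := by
    rw [← Finset.sum_add_distrib]
    refine Finset.sum_congr rfl fun j _ => ?_
    push_cast
    ring
  rw [h3, sum_shift N f h] at h2
  rw [h2]
  simp

variable {p : ℕ} [Fact p.Prime] {k K L : Type} [Field k]
    [Field K] [Field L] [Algebra k K] [Algebra K L] [Algebra k L] [IsScalarTower k K L]

/-- elements fixed by the generator -/
theorem fixed_of_one (T : ZpTower p k K L) (a : L) (h : T.aut 1 a = a) :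
    ∃ b : K, algebraMap K L b = a := by
  have := T.galois
  have hnat : ∀ m : ℕ, T.aut (m : ℤ_[p]) a = a := by
    intro m
    induction m with
    | zero => rw [Nat.cast_zero, T.aut_zero]
    | succ m ih => rw [Nat.cast_add, Nat.cast_one, T.aut_add, ih, h]
  have hall : ∀ σ : L ≃ₐ[K] L, σ a = a := by
    intro σ
    rw [← T.aut_surj σ]
    obtain ⟨m, hm⟩ := T.exists_layer a
    obtain ⟨j, -, z, hz⟩ := ZpTower.exists_nat_dvd (p := p) m (T.iso σ).toAdd
    have h1 : (T.iso σ).toAdd = (p : ℤ_[p]) ^ m * z + j := by rw [← hz]; ring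
    rw [h1, T.aut_add, T.aut_fix m z a hm, hnat]
  exact (InfiniteGalois.mem_range_algebraMap_iff_fixed (k := K) (K := L) a).mpr hall

theorem ex_aut_one (T : ZpTower p k K L) (n : ℕ) (hn : n ≠ 0) : ex T n (T.aut 1) = 1 := by
  have hp : Fact p.Prime := inferInstance
  have h1 : Fact (1 < p ^ n) := ⟨Nat.one_lt_pow hn hp.out.one_lt⟩
  unfold ex
  rw [iso_aut, map_one, ZMod.val_one]

theorem taskLocal : TaskLocal := by
  intro p _ k K L _ _ _ _ _ _ _ _ _ T n y hy x hx
  classical
  have hp : Fact p.Prime := inferInstance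
  rcases Nat.eq_zero_or_pos n with hn | hn
  · subst hn
    exact ⟨0, fun w _ j hj => absurd hj (Nat.not_lt_zero j)⟩
  have hcharK : CharP K p := charP_of_injective_algebraMap (algebraMap k K).injective p
  have hcharL : CharP L p := charP_of_injective_algebraMap (algebraMap K L).injective p
  obtain ⟨A, hA1, hA2, hA3⟩ := exists_base T.curve x
  obtain ⟨w0, hw0⟩ := ZpTower.exists_over (L := L) x
  have htow : IsScalarTower A K L := .of_algebraMap_eq fun _ => rfl
  obtain ⟨θ, hθ1, hθ2, hθ3⟩ := exists_trace T x hx w0 hw0 n A (fun a => hA3 _ a.2)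
  have hAw : ∀ w : ValuationSubring L, w.comap (algebraMap K L) = x.ring →
      ∀ c : L, IsIntegral A c → c ∈ w := by
    intro w hw c hc
    refine integral_mem w ?_ c hc
    intro a
    have h1 := hA3 _ a.2
    rw [← hw] at h1
    exact h1
  -- the Teichmüller representatives
  let f : ℕ → WittVector p L := fun j => WittVector.teichmuller p (T.aut (j : ℤ_[p]) θ)
  have hfN : f (p ^ n) = f 0 := by
    change WittVector.teichmuller p _ = WittVector.teichmuller p _
    congr 1
    have h1 := T.aut_fix n 1 θ hθ1
    rw [mul_one] at h1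
    rw [Nat.cast_zero, T.aut_zero, Nat.cast_pow, h1]
  let s : WittVector p L →+* WittVector p L :=
    WittVector.map ((T.aut 1 : L ≃ₐ[K] L) : L →+* L)
  have hs : ∀ j, s (f j) = f (j + 1) := by
    intro j
    change WittVector.map _ (WittVector.teichmuller p _) = WittVector.teichmuller p _
    rw [WittVector.map_teichmuller]
    congr 1
    rw [Nat.cast_add, Nat.cast_one, T.aut_add]
    rfl
  have hfw : ∀ w : ValuationSubring L, w.comap (algebraMap K L) = x.ring →
      ∀ j, f j ∈ RW p w.toSubring := by
    intro w hw j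
    exact teich_mem _ _ (hAw w hw _ (isIntegral_aut _ _ hθ2))
  set t : WittVector p L := ∑ j ∈ Finset.range (p ^ n), f j with ht
  have hst : s t = t := by
    rw [ht, map_sum, ← sum_shift (p ^ n) f hfN]
    exact Finset.sum_congr rfl fun j _ => hs j
  have htK : ∀ i, ∃ b : K, algebraMap K L b = t.coeff i := by
    intro i
    apply fixed_of_one T
    conv_rhs => rw [← hst]
    rfl
  choose tK htK using htK
  have htw : ∀ w : ValuationSubring L, w.comap (algebraMap K L) = x.ring →
      t ∈ RW p w.toSubring := fun w hw => Subring.sum_mem _ fun j _ => hfw w hw j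
  have htx : ∀ i, tK i ∈ x.ring := by
    intro i
    rw [← hw0, ValuationSubring.mem_comap, htK]
    exact (mem_RW _ _).mp (htw w0 hw0) i
  let tx : WittVector p x.ring := WittVector.mk p fun i => ⟨tK i, htx i⟩
  have hcharx : CharP x.ring p := RingHom.charP x.ring.subtype Subtype.val_injective p
  -- the unit
  have htxmap : WittVector.map ((algebraMap K L).comp x.ring.subtype) tx = t := by
    ext i
    rw [WittVector.map_coeff]
    change algebraMap K L (tK i) = t.coeff i
    exact htK i
  have ht0 : t.coeff 0 = ∑ j ∈ Finset.range (p ^ n), T.aut ((j : ℕ) : ℤ_[p]) θ := by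
    have h1 : WittVector.constantCoeff t = ∑ j ∈ Finset.range (p ^ n),
        WittVector.constantCoeff (f j) := by rw [ht, map_sum]
    exact h1
  have hunit : IsUnit (tx.coeff 0) := by
    have h1 : algebraMap K L (tx.coeff 0 : x.ring) =
        ∑ j ∈ Finset.range (p ^ n), T.aut ((j : ℕ) : ℤ_[p]) θ := by
      rw [← ht0]
      exact htK 0
    have h2 : w0.valuation (algebraMap K L (tx.coeff 0 : x.ring)) = 1 := by rw [h1]; exact hθ3
    rw [x.ring.valuation_eq_one_iff]
    have h3 : x.ring.valuation ((tx.coeff 0 : x.ring) : K) ≤ 1 :=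
      (x.ring.valuation_le_one_iff _).mpr (tx.coeff 0 : x.ring).2
    refine le_antisymm h3 (not_lt.mp fun h4 => ?_)
    have h5 : (w0.comap (algebraMap K L)).valuation ((tx.coeff 0 : x.ring) : K) < 1 := by
      rw [hw0]
      exact h4
    rw [comap_val_lt_one] at h5
    exact h5.ne h2
  obtain ⟨a, ha⟩ := hunit
  let u : (WittVector p x.ring)ˣ := WittVector.mkUnit (a := a) (A := tx) ha.symm
  have hu : (u : WittVector p x.ring) = tx := rfl
  set c : WittVector p L := WittVector.map ((algebraMap K L).comp x.ring.subtype)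
    ((u⁻¹ : (WittVector p x.ring)ˣ) : WittVector p x.ring) with hc
  have htc : t * c = 1 := by
    rw [hc, ← htxmap, ← map_mul, ← hu, Units.mul_inv, map_one]
  have hsc : s c = c := by
    ext i
    rw [hc]
    change T.aut 1 (algebraMap K L _) = algebraMap K L _
    exact AlgEquiv.commutes _ _
  have hcw : ∀ w : ValuationSubring L, w.comap (algebraMap K L) = x.ring →
      c ∈ RW p w.toSubring := by
    intro w hw
    rw [mem_RW]
    intro i
    rw [hc, WittVector.map_coeff]
    have h1 : ∀ z : K, z ∈ x.ring → algebraMap K L z ∈ w := by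
      intro z hz
      rw [← hw] at hz
      exact hz
    exact h1 _ (((u⁻¹ : (WittVector p x.ring)ˣ) : WittVector p x.ring).coeff i).2
  set y' : WittVector p L := -((∑ j ∈ Finset.range (p ^ n), (j : WittVector p L) * f j) * c)
    with hy'
  have hy'w : ∀ w : ValuationSubring L, w.comap (algebraMap K L) = x.ring →
      y' ∈ RW p w.toSubring := by
    intro w hw
    refine Subring.neg_mem _ (Subring.mul_mem _ (Subring.sum_mem _ fun j _ => ?_) (hcw w hw))
    exact Subring.mul_mem _ (natCast_mem _ j) (hfw w hw j)
  have hsy' : s y' = y' + 1 - (p : WittVector p L) ^ n * (f (p ^ n) * c) := by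
    rw [hy', map_neg, map_mul, map_sum, hsc]
    have h1 : ∑ j ∈ Finset.range (p ^ n), s ((j : WittVector p L) * f j) =
        ∑ j ∈ Finset.range (p ^ n), (j : WittVector p L) * f (j + 1) :=
      Finset.sum_congr rfl fun j _ => by rw [map_mul, map_natCast, hs]
    rw [h1, sum_weight (p ^ n) f hfN, ← ht]
    push_cast
    linear_combination htc
  -- the difference
  set d : WittVector p L := y - y' with hd
  have h1 : VZ n (s y - y - 1) := by
    have h2 := hy (T.aut 1)
    rw [ex_aut_one T n hn.ne', Nat.cast_one] at h2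
    exact h2
  have hsd : WittVector.truncate n (s d) = WittVector.truncate n d := by
    rw [vz_iff] at h1
    rw [← sub_eq_zero, ← map_sub]
    have h2 : s d - d = (s y - y - 1) + (p : WittVector p L) ^ n * (f (p ^ n) * c) := by
      rw [hd, map_sub, hsy']
      ring
    rw [h2, map_add, h1, map_mul, truncate_p_pow, zero_mul, add_zero]
  have hdK : ∀ i, ∃ b : K, i < n → algebraMap K L b = d.coeff i := by
    intro i
    by_cases hi : i < n
    · obtain ⟨b, hb⟩ := fixed_of_one T (d.coeff i) (coeff_eq_of_truncate hsd hi)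
      exact ⟨b, fun _ => hb⟩
    · exact ⟨0, fun h => absurd h hi⟩
  choose g hg using hdK
  refine ⟨WittVector.mk p g, fun w hw j hj => ?_⟩
  have h2 : WittVector.truncate n (WittVector.map (algebraMap K L) (WittVector.mk p g)) =
      WittVector.truncate n d := by
    apply truncate_eq_of_coeff
    intro i hi
    rw [WittVector.map_coeff]
    exact hg i hi
  have h3 : WittVector.truncate n (y - WittVector.map (algebraMap K L) (WittVector.mk p g)) =
      WittVector.truncate n y' := by
    rw [map_sub, h2, ← map_sub, hd, sub_sub_cancel]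
  rw [coeff_eq_of_truncate h3 hj]
  exact (mem_RW _ _).mp (hy'w w hw) j

end Pool.Agent.H271ZP
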